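import Pool.Agent.Helper73.OE.Iface

set_option autoImplicit false

/-!
# Project OE (MP_fc0446_an), block E: initial law, sequence of batches, limit

Statements to prove (each one is a closed proposition; if another one is needed it is a hypothesis
of the theorem). Text: Pool/Agent/Helper73/OE/paper.md, section 8.
-/

open MeasureTheory
open scoped ENNReal

namespace Pool.Agent.Helper35.OE

open Pool.Agent.Helper73.OE

/-- The law of independent uniform numbers. -/
noncomputable abbrev uni (A : Type) : Measure (A → unitInterval) :=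
  Measure.infinitePi fun _ : A => (volume : Measure unitInterval)

/-- Initial configuration, environment, and the seeds of all the batches. -/
abbrev Om (H S L : Type) := (Cfg H S L × Env H S) × (ℕ → Seeds H S)

/-- The law of the seeds of all the batches. -/
noncomputable def lamN (H S : Type) : Measure (ℕ → Seeds H S) :=
  Measure.infinitePi fun _ : ℕ => Sys.lamS H S

/-- The action. -/
def actOm {H S L : Type} [Group H] (g : H) (w : Om H S L) : Om H S L :=
  ((Sys.actC g w.1.1, Sys.actE g w.1.2), fun i => Sys.actE g (w.2 i))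

section Traj

variable {H S L : Type} [Group H] [Fintype L] (X : Sys H S L) (P : ℕ → Par) (ε : ℕ → ℝ)

/-- The configuration after `i` batches. -/
noncomputable def traj (w : Om H S L) : ℕ → Cfg H S L
  | 0 => w.1.1
  | i + 1 => X.batch (P i) (ε i) (ε (i + 1)) (traj w i) w.1.2 (w.2 i)

/-- The law after `i` batches. -/
noncomputable def laws (μ : Measure (Cfg H S L × Env H S)) : ℕ → Measure (Cfg H S L × Env H S)
  | 0 => μ
  | i + 1 => X.next (P i) (ε i) (ε (i + 1)) (laws μ i)

open Classical in
/-- The limit configuration. -/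
noncomputable def limC (w : Om H S L) : Cfg H S L := fun v =>
  if h : ∃ f : S ≃ L, ∀ᶠ i : ℕ in Filter.atTop, traj X P ε w i v = f then h.choose else X.e0

end Traj

/-- SUM. Splitting a family of independent uniform numbers. Proof: `x ↦ (x ∘ inl, x ∘ inr)` is a
measurable equivalence with the inverse `p ↦ Sum.elim p.1 p.2`, so it is enough that
`((uni A).prod (uni B)).map (fun p => Sum.elim p.1 p.2) = uni (A ⊕ B)`; use
`Measure.eq_infinitePi`: the preimage of the box `s.pi t` is the product of the boxes
`s.toLeft.pi (t ∘ inl)` and `s.toRight.pi (t ∘ inr)`, then `Measure.prod_prod` and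
`Measure.infinitePi_pi` twice and `Finset.prod_toLeft...` / `Finset.prod_disjSum`. -/
def G_SUM : Prop := ∀ (A B : Type),
  (uni (A ⊕ B)).map (fun x => ((fun a => x (Sum.inl a)), (fun b => x (Sum.inr b)))) =
    (uni A).prod (uni B)

/-- HEAD. Splitting off the first coordinate. Proof as SUM: `p ↦ (n ↦ Nat.rec p.1 (fun i _ => p.2 i) n)`
is the inverse; boxes. -/
def G_HEAD : Prop := ∀ {α : Type} [MeasurableSpace α] (ρ : Measure α) [IsProbabilityMeasure ρ],
  (Measure.infinitePi fun _ : ℕ => ρ).map (fun u => (u 0, fun i => u (i + 1))) =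
    ρ.prod (Measure.infinitePi fun _ : ℕ => ρ)

/-- BASE. All the randomness is an equivariant measure preserving function of independent uniform
numbers at the vertices. Proof. Let `J = Unit ⊕ ((S × Bool) ⊕ (ℕ × S))` (countable), and `ψ : I → (J → I)`
measurable with `volume.map ψ = uni J` (Mathlib:
`MeasureTheory.Measure.exists_measurable_map_eq`, `J → I` is standard Borel), and `a : I → (S ≃ L)`
measurable with `volume.map a = κ` (the same theorem, `S ≃ L` is finite with the discrete
σ-algebra). Put
`(Ω x).1.1 v = a (ψ (x v) (inl ()))`,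
`(Ω x).1.2 (v, s) = (ψ (x v) (inr (inl (s, false))), ψ (x v) (inr (inl (s, true))))`,
`(Ω x).2 i (v, s) = ψ (x v) (inr (inr (i, s)))`.
Equivariance is clear (both sides at `v` use `x (g⁻¹ v)`). Law: `x ↦ (v ↦ ψ (x v))` has the law
`infinitePi fun _ : H => uni J` (`Measure.infinitePi_map_pi`), `(v, j) ↦ ψ (x v) j` has the law
`uni (H × J)` (`Measure.infinitePi_map_curry_symm`), reindexing by
`H ⊕ (((H × S) × Bool) ⊕ (ℕ × (H × S))) ≃ H × J` (`Measure.map_infinitePi_infinitePi_of_inj`) gives
`uni (H ⊕ (((H × S) × Bool) ⊕ (ℕ × (H × S))))`, by SUM twice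
`(uni H).prod ((uni ((H × S) × Bool)).prod (uni (ℕ × (H × S))))`; then `infinitePi_map_pi` with `a`
for the first factor; `infinitePi_map_curry`, `infinitePi_map_eval_prod` (for `Bool`) and
`infinitePi_map_pi` for the second; `infinitePi_map_curry` for the third; finally
`Measure.map_prod_map` and reassociate. -/
def G_BASE : Prop := ∀ {H S L : Type} [Group H] [Countable H] [Fintype S] [Fintype L]
  (κ : Measure (S ≃ L)) [IsProbabilityMeasure κ],
  ∃ Ω : (H → unitInterval) → Om H S L,
    MeasurePreserving Ω (uni H)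
      (((Measure.infinitePi fun _ : H => κ).prod (Sys.lamE H S)).prod (lamN H S)) ∧
    ∀ (g : H) (x : H → unitInterval), Ω (fun h => x (g⁻¹ * h)) = actOm g (Ω x)

/-- LAW. The law of the configuration after `i` batches together with the seeds of the next batch.
Proof. Let `T i w = ((traj w i, w.1.2), fun j => w.2 (i + j))`. By induction, `T i` is measurable
and the law of `T i` under `μ.prod lamN` is `(laws μ i).prod lamN`: `T (i+1) = G ∘ T i` with
`G p = ((batch p.1.1 p.1.2 (p.2 0), p.1.2), fun j => p.2 (j + 1))`; by HEAD the law of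
`(p.1, p.2 0, fun j => p.2 (j+1))` is `(laws μ i).prod (lamS.prod lamN)`; reassociate and apply the
batch map to `(p.1, p.2 0)`. The claim is the image of the law of `T i` under
`p ↦ (p.1, p.2 0)`. -/
def G_LAW : Prop := BatchMeas_stmt → G_HEAD →
  ∀ {H S L : Type} [Group H] [Countable H] [Fintype S] [Fintype L] (X : Sys H S L)
    (P : ℕ → Par) (ε : ℕ → ℝ) (μ : Measure (Cfg H S L × Env H S)) [IsProbabilityMeasure μ] (i : ℕ),
    Measurable (fun w : Om H S L => traj X P ε w i) ∧ IsProbabilityMeasure (laws X P ε μ i) ∧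
      (μ.prod (lamN H S)).map (fun w => ((traj X P ε w i, w.1.2), w.2 i)) =
        (laws X P ε μ i).prod (Sys.lamS H S)

/-- INV. Invariance is preserved by a batch. Proof. `(μ.prod lamS)` is invariant under
`(q, η, u) ↦ (actC g q, actE g η, actE g u)` (`Measure.map_prod_map`; the law `lamS` is invariant
by `Measure.map_infinitePi_infinitePi_of_inj`), the batch is equivariant: `Measure.map_map`. -/
def G_INV : Prop := BatchEquiv_stmt → BatchMeas_stmt →
  ∀ {H S L : Type} [Group H] [Countable H] [Fintype S] [Fintype L] (X : Sys H S L)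
    (P : Par) (ε ε' : ℝ) (μ : Measure (Cfg H S L × Env H S)) [IsProbabilityMeasure μ],
    Sys.Inv μ → Sys.Inv (X.next P ε ε' μ)

/-- SHIFT. The probability that the configuration at `v` is changed by a batch does not depend on
`v`. Proof. With `g = v⁻¹`: `batch (actC g q) (actE g η) (actE g u) 1 = batch q η u v` and
`actC g q 1 = q v`, so the set for `v` is the preimage of the set for `1` under the measure
preserving map `(q, η, u) ↦ (actC g q, actE g η, actE g u)` (see INV). -/
def G_SHIFT : Prop := BatchEquiv_stmt → BatchMeas_stmt →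
  ∀ {H S L : Type} [Group H] [Countable H] [Fintype S] [Fintype L] (X : Sys H S L)
    (P : Par) (ε ε' : ℝ) (μ : Measure (Cfg H S L × Env H S)) [IsProbabilityMeasure μ],
    Sys.Inv μ → ∀ v : H,
    (μ.prod (Sys.lamS H S)) {w | X.batch P ε ε' w.1.1 w.1.2 w.2 v ≠ w.1.1 v} =
      (μ.prod (Sys.lamS H S)) {w | X.batch P ε ε' w.1.1 w.1.2 w.2 1 ≠ w.1.1 1}

/-- STAB. If the probabilities of a change are summable, the configurations converge. Proof. For
every `v`, by LAW and SHIFT the probability of `traj (i+1) v ≠ traj i v` is the `i`-th term of the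
series; Borel-Cantelli (`measure_limsup_atTop_eq_zero` or `ae_eventually_notMem`): almost surely
`traj (i+1) v = traj i v` for all large `i`, hence `traj i v` is eventually constant. `H` is
countable. (`laws` are invariant by INV and induction.) -/
def G_STAB : Prop := BatchEquiv_stmt → BatchMeas_stmt → G_HEAD → G_LAW → G_INV → G_SHIFT →
  ∀ {H S L : Type} [Group H] [Countable H] [Fintype S] [Fintype L] (X : Sys H S L)
    (P : ℕ → Par) (ε : ℕ → ℝ) (μ : Measure (Cfg H S L × Env H S)) [IsProbabilityMeasure μ],
    Sys.Inv μ →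
    ∑' i : ℕ, ((laws X P ε μ i).prod (Sys.lamS H S))
      {w | X.batch (P i) (ε i) (ε (i + 1)) w.1.1 w.1.2 w.2 1 ≠ w.1.1 1} ≠ ⊤ →
    ∀ᵐ w ∂(μ.prod (lamN H S)), ∀ v : H,
      ∃ f : S ≃ L, ∀ᶠ i : ℕ in Filter.atTop, traj X P ε w i v = f

/-- MLIM. The limit is a measurable function. Proof. Each `{w | limC w v = f}` is, since the `f` with
`traj w i v = f` eventually is unique, the union of the measurable set
`{w | ∀ᶠ i, traj w i v = f} = ⋃ N, ⋂ i ≥ N, {w | traj w i v = f}` and, if `f = e0`, of the
complement of the finite union of these sets. -/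
def G_MLIM : Prop :=
  ∀ {H S L : Type} [Group H] [Countable H] [Fintype S] [Fintype L] (X : Sys H S L)
    (P : ℕ → Par) (ε : ℕ → ℝ), (∀ i, Measurable (fun w : Om H S L => traj X P ε w i)) →
    Measurable (fun w : Om H S L => limC X P ε w)

/-- ELIM. The trajectory and the limit are equivariant. Proof: induction with `BatchEquiv_stmt`; for
the limit, `traj (actOm g w) i v = traj w i (g⁻¹ v)`. -/
def G_ELIM : Prop := BatchEquiv_stmt →
  ∀ {H S L : Type} [Group H] [Fintype L] (X : Sys H S L) (P : ℕ → Par) (ε : ℕ → ℝ) (g : H)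
    (w : Om H S L), (∀ i, traj X P ε (actOm g w) i = Sys.actC g (traj X P ε w i)) ∧
      limC X P ε (actOm g w) = Sys.actC g (limC X P ε w)

/-- INI1. First half of `Init_stmt`. Proof. `unitInterval` squares are at most `1`, so no edge is
in `Op 1 η`, and `MA` is trivially true: `starAvg` is the mean value over all `f : Λ → (S ≃ L)`.
Tonelli (`lintegral_prod_symm`); for fixed `η`, `F (q, η) = F (glue Λ (Λ.restrict q), η)`, and by
`lintegral_restrict_infinitePi` the integral over `q` is the integral over `Measure.pi` on the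
finite discrete space `Λ → (S ≃ L)`, i.e. (`lintegral_fintype`) the sum with the weights
`∏ κ {f i} = (1 / card (S ≃ L)) ^ card Λ`. -/
def G_INI1 : Prop :=
  ∀ {H S L : Type} [Group H] [Countable H] [Fintype S] [Fintype L] (X : Sys H S L)
    (κ : Measure (S ≃ L)) [IsProbabilityMeasure κ], (∀ f g : S ≃ L, κ {f} = κ {g}) →
      X.IsStar 1 ((Measure.infinitePi fun _ : H => κ).prod (Sys.lamE H S))

/-- INI2. Second half. `Measure.map_prod_map` and
`Measure.map_infinitePi_infinitePi_of_inj` for the injections `v ↦ g⁻¹ v` and `e ↦ (g⁻¹ e.1, e.2)`. -/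
def G_INI2 : Prop :=
  ∀ {H S L : Type} [Group H] [Countable H] [Fintype S] [Fintype L]
    (κ : Measure (S ≃ L)) [IsProbabilityMeasure κ],
      Sys.Inv ((Measure.infinitePi fun _ : H => κ).prod (Sys.lamE H S))

/-- SEQ. `Seq_stmt`. Proof. Let `A l = 4096⁻¹ ^ l`, and `K l ≥ 1` a natural number so large that
`δ l = (A l - A (l+1)) / K l` is at most `θ l` and `K l * (δ l / θ l) ^ 2 ≤ 2⁻¹ ^ l`, i.e.
`(A l - A (l+1)) ^ 2 / (K l * θ l ^ 2) ≤ 2⁻¹ ^ l`. The state is a pair `(l, j)` with `j < K l`, with
`ε = A l - j δ l`; the next state is `(l, j+1)` if `j + 1 < K l` and `(l+1, 0)` otherwise; the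
difference of the two `ε` is `δ l` in both cases, so the summand is
`b l = (δ l / θ l) ^ 2 + C δ l 2048 ^ l`. By induction the sum of the first `i` summands is
`∑ l' < l, K l' b l' + j b l ≤ ∑ l' ≤ l, (1 + C) 2⁻¹ ^ l' ≤ 2 (1 + C)`
(`summable_of_sum_range_le`). Every scale is reached after finitely many steps, so `ε → 0`
(antitone). -/
def G_SEQ : Prop := Seq_stmt

end Pool.Agent.Helper35.OE
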