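import Pool.Agent.Helper35.OE.GoalsE

set_option autoImplicit false

/-!
# Project OE (MP_fc0446_an), block E: assembly of the structure theorem
-/

open MeasureTheory
open scoped ENNReal

namespace Pool.Agent.Helper35.OE

open Pool.Agent.Helper73.OE

instance instProbLamE (H S : Type) : IsProbabilityMeasure (Sys.lamE H S) := by
  unfold Sys.lamE
  infer_instance

instance instProbLamS (H S : Type) : IsProbabilityMeasure (Sys.lamS H S) := by
  unfold Sys.lamS
  infer_instance

instance instProbLamN (H S : Type) : IsProbabilityMeasure (lamN H S) := by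
  unfold lamN
  infer_instance

/-- almost surely all the numbers of the environment are positive -/
theorem ae_pos (H S : Type) [Countable H] [Finite S] :
    ∀ᵐ η ∂(Sys.lamE H S), ∀ e : H × S, 0 < ((η e).1 : ℝ) := by
  rw [ae_all_iff]
  intro e
  have h1 : ∀ᵐ p ∂(volume : Measure (unitInterval × unitInterval)), 0 < ((p.1 : unitInterval) : ℝ) := by
    have h2 : ∀ᵐ a : unitInterval ∂(volume : Measure unitInterval), 0 < (a : ℝ) := by
      have h3 : ∀ᵐ a : unitInterval ∂(volume : Measure unitInterval), a ≠ 0 := by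
        rw [ae_iff]
        simp only [ne_eq, not_not]
        have h4 : {a : unitInterval | a = 0} = ({0} : Set unitInterval) := rfl
        rw [h4]
        exact measure_singleton _
      filter_upwards [h3] with a ha
      exact lt_of_le_of_ne a.2.1 (fun h => ha (Subtype.ext h.symm))
    exact Measure.quasiMeasurePreserving_fst.ae h2
  exact (measurePreserving_eval_infinitePi
    (fun _ : H × S => (volume : Measure (unitInterval × unitInterval))) e).quasiMeasurePreserving.ae h1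

theorem struct_of (hC : Cost_stmt) (hB : Batch_stmt) (hE : BatchEquiv_stmt) (hM : BatchMeas_stmt)
    (hMt : Matched_stmt) (hI1 : G_INI1) (hI2 : G_INI2) (hS : Seq_stmt) (hBase : G_BASE)
    (hHead : G_HEAD) (hLaw : G_LAW) (hInv : G_INV) (hShift : G_SHIFT) (hStab : G_STAB)
    (hMlim : G_MLIM) (hElim : G_ELIM) : Struct_stmt := by
  intro H S L _ _ _ _ X hcard
  classical
  obtain ⟨C, hC0, hCl⟩ := hC X hcard
  choose J M hJM using hCl
  have hθ := fun l : ℕ => hB X hcard (J l) (M l) (((1 : ℝ) / 4096) ^ (l + 1)) (by positivity)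
  choose θ hθ0 hθB using hθ
  obtain ⟨ε, l, hε0, hdec, hsc, hstep, htend, hsum⟩ :=
    hS θ (C * Fintype.card S) hθ0 (by positivity)
  have hcap := fun i : ℕ => hJM (l i) (ε i) (hsc i).1 (hsc i).2
  choose cap hcap1 hcost using hcap
  set P : ℕ → Par := fun i => ⟨J (l i), M (l i), cap i⟩ with hP
  have : Nonempty (S ≃ L) := ⟨X.e0⟩
  set κ : Measure (S ≃ L) := (PMF.uniformOfFintype (S ≃ L)).toMeasure with hκ
  have hκp : IsProbabilityMeasure κ := by rw [hκ]; infer_instance
  have hκu : ∀ f g : S ≃ L, κ {f} = κ {g} := by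
    intro f g
    rw [hκ, PMF.toMeasure_apply_singleton _ _ (measurableSet_singleton f),
      PMF.toMeasure_apply_singleton _ _ (measurableSet_singleton g),
      PMF.uniformOfFintype_apply, PMF.uniformOfFintype_apply]
  set μ0 : Measure (Cfg H S L × Env H S) :=
    (Measure.infinitePi fun _ : H => κ).prod (Sys.lamE H S) with hμ0
  have hstar0 : X.IsStar 1 μ0 := hI1 X κ hκu
  have hinv0 : Sys.Inv μ0 := hI2 κ
  have hlaw := fun i => hLaw hM hHead X P ε μ0 i
  have hprob : ∀ i, IsProbabilityMeasure (laws X P ε μ0 i) := fun i => (hlaw i).2.1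
  have hle1 : ∀ i, ε i ≤ 1 := fun i =>
    (hsc i).2.trans (pow_le_one₀ (by norm_num) (by norm_num))
  have hpos : ∀ i, 0 < ε i := fun i => lt_of_lt_of_le (by positivity) (hsc i).1
  have hmain : ∀ i, X.IsStar (ε i) (laws X P ε μ0 i) ∧ Sys.Inv (laws X P ε μ0 i) := by
    intro i
    induction i with
    | zero =>
      refine ⟨?_, hinv0⟩
      rw [hε0]
      exact hstar0
    | succ i ih =>
      have := hprob i
      refine ⟨?_, hInv hE hM X (P i) (ε i) (ε (i + 1)) (laws X P ε μ0 i) ih.2⟩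
      exact (hθB (l i) (cap i) (hcap1 i) (ε i) (ε (i + 1)) (hsc i).1 (hle1 i) (hdec i).1
        (hdec i).2 (hstep i) (laws X P ε μ0 i) ih.1 ih.2).1
  have hbd : ∀ i, ((laws X P ε μ0 i).prod (Sys.lamS H S))
      {w | X.batch (P i) (ε i) (ε (i + 1)) w.1.1 w.1.2 w.2 1 ≠ w.1.1 1} ≤
      ENNReal.ofReal (((ε i - ε (i + 1)) / θ (l i)) ^ 2 +
        C * Fintype.card S * (ε i - ε (i + 1)) * 2048 ^ (l i)) := by
    intro i
    have h1 := (hθB (l i) (cap i) (hcap1 i) (ε i) (ε (i + 1)) (hsc i).1 (hle1 i) (hdec i).1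
        (hdec i).2 (hstep i) (laws X P ε μ0 i) (hmain i).1 (hmain i).2).2
    refine h1.trans ?_
    have h2 : ∀ s : S, X.cost ⟨J (l i), M (l i), cap i⟩ (ε i) (ε (i + 1)) (laws X P ε μ0 i) s ≤
        ENNReal.ofReal (C * (ε i - ε (i + 1)) * 2048 ^ (l i)) := fun s =>
      hcost i (ε (i + 1)) (hdec i).1 (hdec i).2 (laws X P ε μ0 i) (hmain i).1 s
    have h3 : ∑ s : S, X.cost ⟨J (l i), M (l i), cap i⟩ (ε i) (ε (i + 1)) (laws X P ε μ0 i) s ≤
        ∑ s : S, ENNReal.ofReal (C * (ε i - ε (i + 1)) * 2048 ^ (l i)) :=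
      Finset.sum_le_sum (fun s _ => h2 s)
    have hd : 0 ≤ ε i - ε (i + 1) := by linarith [(hdec i).2]
    rw [Finset.sum_const, Finset.card_univ, nsmul_eq_mul] at h3
    have h4 : (Fintype.card S : ℝ≥0∞) * ENNReal.ofReal (C * (ε i - ε (i + 1)) * 2048 ^ (l i)) =
        ENNReal.ofReal (C * Fintype.card S * (ε i - ε (i + 1)) * 2048 ^ (l i)) := by
      rw [← ENNReal.ofReal_natCast, ← ENNReal.ofReal_mul (by positivity)]
      congr 1
      ring
    rw [h4] at h3
    rw [ENNReal.ofReal_add (by positivity) (by positivity)]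
    exact add_le_add le_rfl h3
  have hfin : ∑' i : ℕ, ((laws X P ε μ0 i).prod (Sys.lamS H S))
      {w | X.batch (P i) (ε i) (ε (i + 1)) w.1.1 w.1.2 w.2 1 ≠ w.1.1 1} ≠ ⊤ := by
    have hs2 : Summable fun i => ((ε i - ε (i + 1)) / θ (l i)) ^ 2 +
        C * Fintype.card S * (ε i - ε (i + 1)) * 2048 ^ (l i) := hsum
    refine ne_top_of_le_ne_top hs2.tsum_ofReal_ne_top ?_
    exact ENNReal.tsum_le_tsum hbd
  have hst := hStab hE hM hHead hLaw hInv hShift X P ε μ0 hinv0 hfin
  -- matched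
  have hma : ∀ᵐ w ∂(μ0.prod (lamN H S)), ∀ i : ℕ,
      X.MA (X.Op (ε i) w.1.2) Set.univ (traj X P ε w i) := by
    rw [ae_all_iff]
    intro i
    have h1 := hMt X (ε i) (laws X P ε μ0 i) (hmain i).1
    have hmeas : Measurable (fun w : Om H S L => ((traj X P ε w i, w.1.2), w.2 i)) := by
      have := (hlaw i).1
      fun_prop
    have h2 : MeasurePreserving (fun w : Om H S L => ((traj X P ε w i, w.1.2), w.2 i))
        (μ0.prod (lamN H S)) ((laws X P ε μ0 i).prod (Sys.lamS H S)) := ⟨hmeas, (hlaw i).2.2⟩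
    have h3 : ∀ᵐ p ∂((laws X P ε μ0 i).prod (Sys.lamS H S)),
        X.MA (X.Op (ε i) p.1.2) Set.univ p.1.1 := by
      have := hprob i
      exact Measure.quasiMeasurePreserving_fst.ae h1
    exact h2.quasiMeasurePreserving.ae h3
  have hη : ∀ᵐ w ∂(μ0.prod (lamN H S)), ∀ e : H × S, 0 < ((w.1.2 e).1 : ℝ) := by
    have h1 : ∀ᵐ p ∂μ0, ∀ e : H × S, 0 < ((p.2 e).1 : ℝ) :=
      Measure.quasiMeasurePreserving_snd.ae (ae_pos H S)
    exact Measure.quasiMeasurePreserving_fst.ae h1
  have hlimM : ∀ᵐ w ∂(μ0.prod (lamN H S)), ∀ v s, X.Mt (limC X P ε w) v s := by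
    filter_upwards [hst, hma, hη] with w w1 w2 w3 v s
    have key : ∀ v : H, ∀ᶠ i : ℕ in Filter.atTop, traj X P ε w i v = limC X P ε w v := by
      intro v
      have hex := w1 v
      have : limC X P ε w v = hex.choose := by
        unfold limC
        rw [dif_pos hex]
      rw [this]
      exact hex.choose_spec
    have hop : ∀ᶠ i : ℕ in Filter.atTop, X.Op (ε i) w.1.2 v s := by
      have h1 : 0 < ((w.1.2 (v, s)).1 : ℝ) ^ 2 := pow_pos (w3 (v, s)) 2
      have h2 := htend.eventually (gt_mem_nhds h1)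
      filter_upwards [h2] with i hi
      intro hcl
      exact absurd hcl.1 (not_le.mpr hi)
    obtain ⟨i, hi1, hi2, hi3⟩ := ((key v).and ((key (X.nb v s)).and hop)).exists
    have h4 := w2 i v s (Set.mem_univ _) (Set.mem_univ _) hi3
    unfold Sys.Mt at h4 ⊢
    rw [← hi1, ← hi2]
    exact h4
  obtain ⟨Ω, hΩ, hΩe⟩ := hBase (H := H) (S := S) (L := L) κ
  refine ⟨fun x => limC X P ε (Ω x), ?_, ?_, ?_⟩
  · exact (hMlim X P ε (fun i => (hlaw i).1)).comp hΩ.measurable
  · intro g x
    show limC X P ε (Ω (fun h => x (g⁻¹ * h))) = Sys.actC g (limC X P ε (Ω x))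
    rw [hΩe, (hElim hE X P ε g (Ω x)).2]
  · exact hΩ.quasiMeasurePreserving.ae hlimM

end Pool.Agent.Helper35.OE
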