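import Pool.Agent.Helper35.OE.Tree

set_option autoImplicit false

/-!
# Project OE (MP_fc0446_an), block E: the factor maps from the structure theorem
-/

open MeasureTheory
open scoped ENNReal

namespace Pool.Agent.Helper35.OE

open Pool.Agent.Helper73.OE Pool.Agent.Helper58.Orb

/-- `Φ` maps almost every orbit onto an orbit. -/
def OrbitsOnto {G H : Type} [Group G] [Group H] (Φ : Bern G → Bern H) : Prop :=
  ∀ᵐ x ∂(bern G), Set.range (fun g : G => Φ (shift g x)) =
    Set.range (fun γ : H => shift γ (Φ x))

/-- A measure preserving map from uniform numbers to pairs of independent uniform numbers at every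
vertex. -/
theorem split (hS : G_SUM) (H : Type) :
    ∃ ψ : unitInterval → (Bool → unitInterval), Measurable ψ ∧
      MeasurePreserving (fun x : H → unitInterval => ((fun v => ψ (x v) false),
        (fun v => ψ (x v) true))) (uni H) ((uni H).prod (uni H)) := by
  obtain ⟨ψ, hψ, hmap⟩ := MeasureTheory.Measure.exists_measurable_map_eq
    (μ := (uni Bool))
  refine ⟨ψ, hψ, ?_, ?_⟩
  · fun_prop
  · have h1 : (uni H).map (fun x (v : H) => ψ (x v)) = Measure.infinitePi fun _ : H => uni Bool := by
      rw [Measure.infinitePi_map_pi (fun _ : H => (volume : Measure unitInterval))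
        (f := fun _ => ψ) (fun _ => hψ)]
      congr 1
      funext v
      exact hmap
    have h2 : (uni H).map (fun x (p : H × Bool) => ψ (x p.1) p.2) = uni (H × Bool) := by
      have h3 := Measure.infinitePi_map_curry_symm (ι := H) (κ := Bool)
        (fun _ _ => (volume : Measure unitInterval))
      rw [← h1, Measure.map_map (by fun_prop) (by fun_prop)] at h3
      exact h3
    set f : H ⊕ H → H × Bool := Sum.elim (fun v => (v, false)) (fun v => (v, true)) with hf
    have hinj : Function.Injective f := by
      rintro (a | a) (b | b) hab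
      · simpa [hf] using hab
      · simp [hf] at hab
      · simp [hf] at hab
      · simpa [hf] using hab
    have h4 : (uni (H × Bool)).map (fun y i => y (f i)) = uni (H ⊕ H) :=
      Measure.map_infinitePi_infinitePi_of_inj (P := fun _ : H × Bool =>
        (volume : Measure unitInterval)) hinj
    rw [← hS H H, ← h4, ← h2, Measure.map_map (by fun_prop) (by fun_prop),
      Measure.map_map (by fun_prop) (by fun_prop)]
    rfl

section Factor

variable {G K : Type} [Group G] [Group K] [Countable G] [Countable K] {S : Set G} {S' : Set K}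
  {D L : Type} [Fintype D] [Fintype L] (X : Sys G D L) (T' : TreeData K S' L)
  (c : (G → unitInterval) → Cfg G D L) (hc : Measurable c)

include hc in
omit [Countable G] [Fintype L] in
theorem meas_walk (l : List L) (v h : G) : MeasurableSet {y | walkL X (c y) l v = h} := by
  induction l generalizing v with
  | nil =>
    show MeasurableSet {_y : G → unitInterval | v = h}
    exact MeasurableSet.const _
  | cons a l ih =>
    have : {y | walkL X (c y) (a :: l) v = h} =
        ⋃ s : D, {y | c y v s = a} ∩ {y | walkL X (c y) l (X.nb v s) = h} := by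
      ext y
      simp only [Set.mem_ofPred_eq, Set.mem_iUnion, Set.mem_inter_iff]
      constructor
      · intro hy
        exact ⟨(c y v).symm a, Equiv.apply_symm_apply _ _, hy⟩
      · rintro ⟨s, h1, h2⟩
        have h3 : (c y v).symm a = s := by rw [← h1, Equiv.symm_apply_apply]
        show walkL X (c y) l (X.nb v ((c y v).symm a)) = h
        rw [h3]
        exact h2
    rw [this]
    refine MeasurableSet.iUnion fun s => ?_
    have h1 : Measurable fun y => c y v := (measurable_pi_apply v).comp hc
    have h2 : MeasurableSet {y | c y v s = a} :=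
      h1 (show MeasurableSet {e : D ≃ L | e s = a} from MeasurableSpace.measurableSet_top)
    exact h2.inter (ih _)

/-- The relabelling map. -/
noncomputable def relab (p : (G → unitInterval) × (G → unitInterval)) : K → unitInterval :=
  fun γ => p.2 (xi X T' (c p.1) γ)

include hc in
omit [Fintype L] [Countable K] in
theorem meas_relab : Measurable (relab X T' c) := by
  rw [measurable_pi_iff]
  intro γ B hB
  have : (fun p => relab X T' c p γ) ⁻¹' B =
      ⋃ h : G, (Prod.fst ⁻¹' {y | xi X T' (c y) γ = h}) ∩
        (Prod.snd ⁻¹' ((fun z : G → unitInterval => z h) ⁻¹' B)) := by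
    ext p
    simp only [Set.mem_preimage, Set.mem_iUnion, Set.mem_inter_iff, Set.mem_ofPred_eq, relab]
    constructor
    · intro hp
      exact ⟨_, rfl, hp⟩
    · rintro ⟨h, h1, h2⟩
      rw [h1]
      exact h2
  rw [this]
  refine MeasurableSet.iUnion fun h => ?_
  refine (measurable_fst ?_).inter (measurable_snd (measurable_pi_apply h hB))
  exact meas_walk X c hc _ _ _

include hc in
omit [Fintype L] [Countable K] in
theorem mp_relab (hτ : ∀ l, X.tau l = T'.inv l)
    (hcm : ∀ᵐ y ∂(uni G), ∀ v s, X.Mt (c y) v s) :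
    MeasurePreserving (relab X T' c) ((uni G).prod (uni G)) (uni K) := by
  refine ⟨meas_relab X T' c hc, ?_⟩
  ext B hB
  rw [Measure.map_apply (meas_relab X T' c hc) hB,
    Measure.prod_apply (meas_relab X T' c hc hB)]
  have h1 : ∀ᵐ y ∂(uni G), (uni G) (Prod.mk y ⁻¹' (relab X T' c ⁻¹' B)) = uni K B := by
    filter_upwards [hcm] with y hy
    have hinj := xi_inj X T' hτ (q := c y) hy
    have h2 := Measure.map_infinitePi_infinitePi_of_inj (P := fun _ : G =>
        (volume : Measure unitInterval)) hinj
    have h3 : Prod.mk y ⁻¹' (relab X T' c ⁻¹' B) =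
        (fun (z : G → unitInterval) (γ : K) => z (xi X T' (c y) γ)) ⁻¹' B := rfl
    rw [h3, ← Measure.map_apply (by fun_prop) hB, h2]
  rw [lintegral_congr_ae h1, lintegral_const, measure_univ, mul_one]

end Factor

section Main

theorem factor {G K : Type} [Group G] [Group K] [Countable G] [Countable K] {S : Set G}
    {S' : Set K} {D L : Type} [Fintype D] [Fintype L] (T : TreeData G S D) (T' : TreeData K S' L)
    (hS : G_SUM) (hstr : Struct_stmt) (h3 : 3 ≤ Fintype.card L) (e0 : D ≃ L) :
    ∃ Φ : Bern G → Bern K, OrbitIsometry S S' Φ ∧ OrbitsOnto Φ := by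
  set X : Sys G D L := sysOf T T'.inv T'.inv_inv e0 with hX
  have hτ : ∀ l, X.tau l = T'.inv l := fun l => rfl
  obtain ⟨c, hc, hce, hcm⟩ := hstr X h3
  obtain ⟨ψ, hψ, hsp⟩ := split hS G
  set U : Bern G → (G → unitInterval) × (G → unitInterval) :=
    fun x => ((fun v => ψ (x v) false), (fun v => ψ (x v) true)) with hU
  set Φ : Bern G → Bern K := fun x => relab X T' c (U x) with hΦ
  have hmp : MeasurePreserving Φ (bern G) (bern K) := (mp_relab X T' c hc hτ hcm).comp hsp
  have hma : ∀ᵐ x ∂(bern G), Matched X (c (U x).1) := by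
    have h1 : ∀ᵐ p ∂((uni G).prod (uni G)), Matched X (c p.1) :=
      Measure.quasiMeasurePreserving_fst.ae hcm
    exact hsp.quasiMeasurePreserving.ae h1
  -- equivariance
  have heq : ∀ x, Matched X (c (U x).1) → ∀ g : G,
      Φ (shift g x) = shift (theta X T'.dir (c (U x).1) g⁻¹)⁻¹ (Φ x) := by
    intro x hx g
    have h1 : (U (shift g x)).1 = fun h => (U x).1 (g⁻¹ * h) := rfl
    have h2 : c (U (shift g x)).1 = Sys.actC g (c (U x).1) := by rw [h1, hce]
    funext γ
    show (U (shift g x)).2 (xi X T' (c (U (shift g x)).1) γ) =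
      (U x).2 (xi X T' (c (U x).1) ((theta X T'.dir (c (U x).1) g⁻¹)⁻¹⁻¹ * γ))
    rw [h2, xi_act X T' hτ hx g γ, inv_inv]
    show (U x).2 (g⁻¹ * (g * _)) = _
    rw [inv_mul_cancel_left]
  refine ⟨Φ, ⟨hmp, ?_⟩, ?_⟩
  · have hfree := ae_free (G := G)
    have hfree' := hmp.quasiMeasurePreserving.ae (ae_free (G := K))
    filter_upwards [hma, hfree, hfree'] with x h1 h2 h4 g
    rw [orbDist_shift h2, heq x h1 g, orbDist_shift h4, T.wordLen_eq, T'.wordLen_eq,
      len_inv T']
    have h5 := len_theta X T' hτ h1 1 g⁻¹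
    rw [theta_one, inv_one, one_mul] at h5
    rw [h5]
    have h6 : X.dist 1 g⁻¹ = T.len ((1 : G)⁻¹ * g⁻¹) := rfl
    rw [h6, inv_one, one_mul, len_inv T]
  · filter_upwards [hma] with x h1
    ext y
    simp only [Set.mem_range]
    constructor
    · rintro ⟨g, rfl⟩
      exact ⟨_, (heq x h1 g).symm⟩
    · rintro ⟨γ, rfl⟩
      refine ⟨(xi X T' (c (U x).1) γ⁻¹)⁻¹, ?_⟩
      rw [heq x h1, inv_inv, theta_xi X T' hτ h1, inv_inv]

end Main

theorem final_of (hS : G_SUM) (hstr : Struct_stmt) (d : ℕ) (hd : 2 ≤ d) :
    (∃ Φ : Bern (FreeGroup (Fin d)) → Bern (Gam (2 * d)),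
      OrbitIsometry (freeGens d) (gamGens (2 * d)) Φ ∧ OrbitsOnto Φ) ∧
    (∃ Ψ : Bern (Gam (2 * d)) → Bern (FreeGroup (Fin d)),
      OrbitIsometry (gamGens (2 * d)) (freeGens d) Ψ ∧ OrbitsOnto Ψ) := by
  have c1 : Fintype.card (Fin d × Bool) = 2 * d := by simp [mul_comm]
  have c2 : Fintype.card (Fin (2 * d)) = 2 * d := by simp
  have : Countable (FreeGroup (Fin d)) := by
    have hinj : Function.Injective (FreeGroup.toWord : FreeGroup (Fin d) → _) :=
      FreeGroup.toWord_injective
    exact hinj.countable
  have e : Fin d × Bool ≃ Fin (2 * d) := Fintype.equivOfCardEq (c1.trans c2.symm)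
  exact ⟨factor (freeTree d) (gamTree (2 * d)) hS hstr (by omega) e,
    factor (gamTree (2 * d)) (freeTree d) hS hstr (by omega) e.symm⟩

end Pool.Agent.Helper35.OE
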