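import Pool.Agent.Helper78.OE.GoalsC3

/-!
Project OE (MP_fc0446_an): packet OE-HH (5.4).
-/

open MeasureTheory Pool.Agent.Helper73.OE Pool.Agent.Helper78.OE
open scoped ENNReal

namespace Pool.Agent.Helper35.OE

variable {H S L : Type} [Group H] (X : Sys H S L)

theorem meas_eqc (v : H) (s : S) (φ : L → Prop) :
    Measurable fun w : St H S L => ind (φ (w.1 v s)) := by
  apply measurable_ind
  have h1 : Measurable fun w : St H S L => w.1 v := (measurable_pi_apply v).comp measurable_fst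
  have h2 : MeasurableSet ({σ | φ (σ s)} : Set (S ≃ L)) := trivial
  exact h1 h2

theorem gxy_meas {b : (unitInterval × unitInterval) × (unitInterval × unitInterval) → ℝ≥0∞}
    (hb : Measurable b) (v : H) (s : S) (x y : L) : Measurable (Gxy X b v s x y) := by
  have h1 : Measurable fun w : St H S L => b (w.2 (v, s), w.2 (X.rev (v, s))) :=
    hb.comp (((measurable_pi_apply (v, s)).comp measurable_snd).prodMk
      ((measurable_pi_apply (X.rev (v, s))).comp measurable_snd))
  have h2 : Measurable fun w : St H S L => ind (w.1 v s = x) := meas_eqc v s (fun l => l = x)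
  have h3 : Measurable fun w : St H S L => ind (X.tau (w.1 (X.nb v s) (X.bar s)) = y) :=
    meas_eqc (X.nb v s) (X.bar s) (fun l => X.tau l = y)
  exact h1.mul (h2.mul h3)

theorem gxy_dep (b : (unitInterval × unitInterval) × (unitInterval × unitInterval) → ℝ≥0∞)
    (v : H) (s : S) (x y : L) : X.DepOn (X.Past v s) (Gxy X b v s x y) := by
  intro w w' h1 h2
  have hv := X.self_mem_Past v s
  have hn := X.nb_mem_Past v s
  have h3 : w.2 (X.rev (v, s)) = w'.2 (X.rev (v, s)) :=
    h2 _ _ hn (by rw [X.nb_bar]; exact hv)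
  show b (w.2 (v, s), w.2 (X.rev (v, s))) * (ind (w.1 v s = x) *
      ind (X.tau (w.1 (X.nb v s) (X.bar s)) = y)) =
    b (w'.2 (v, s), w'.2 (X.rev (v, s))) * (ind (w'.1 v s = x) *
      ind (X.tau (w'.1 (X.nb v s) (X.bar s)) = y))
  rw [h1 v hv, h1 _ hn, h2 v s hv hn, h3]

theorem gxy_test {b : (unitInterval × unitInterval) × (unitInterval × unitInterval) → ℝ≥0∞}
    (hb : Measurable b) (hb1 : ∀ c, b c ≤ 1) (v : H) (s : S) {x z : L} (y : L) (h : x ≠ z) :
    Test X v s z (Gxy X b v s x y) where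
  meas := gxy_meas X hb v s x y
  dep := gxy_dep X b v s x y
  van := fun w hw => by
    show b _ * (ind (w.1 v s = x) * ind _) = 0
    rw [ind_false (fun h' => h (h'.symm.trans hw)), zero_mul, mul_zero]
  le_one := fun w => mul_le_one' (hb1 _) (mul_le_one' (ind_le_one _) (ind_le_one _))

theorem gxy_ne {b : (unitInterval × unitInterval) × (unitInterval × unitInterval) → ℝ≥0∞}
    {v : H} {s : S} {x y : L} {w : St H S L} (h : Gxy X b v s x y w ≠ 0) : w.1 v s = x := by
  by_contra h'
  apply h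
  show b _ * (ind (w.1 v s = x) * ind _) = 0
  rw [ind_false h', zero_mul, mul_zero]

variable [Fintype S] [Fintype L]

theorem tri_agr (hL : LOCB X) (P : Par) {v : H} {R r : ℕ} (hr : 4 * P.J + 3 + R ≤ r)
    {O O' : Edges H S} {f f' : Cfg H S L} (h : Agr X (X.ball v r) O O' f f')
    (i : Fin P.J × L) (s : S) (y : L) :
    Agr X (X.ball v R) O O' (X.TRi P O i v s y f) (X.TRi P O' i v s y f') := by
  refine ⟨fun z hz => ?_, (h.mono X ?_).2⟩
  · unfold Sys.TRi
    refine (hL O O' f f' v r h s y i.2).2.2.2.2 (2 * (i.1 : ℕ) + 1) z ?_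
    have h1 := i.1.2
    rw [X.mem_ball] at hz
    omega
  · intro z hz
    rw [X.mem_ball] at hz ⊢
    omega

theorem meas_F (hM : MEAS X) (hL : LOCB X) (ε : ℝ) (P : Par) (v : H) (s : S) (x y : L)
    (i : Fin P.J × L) (ψ : ℕ → ℝ≥0∞) :
    Measurable fun w : St H S L => ind (i ∈ X.AS P (Om X ε w) w.1 v s y) *
      ψ (X.AS P (Om X ε w) (X.TRi P (Om X ε w) i v s y w.1) v s x).card := by
  have h2 := (hM (fun O f => ind (i ∈ X.AS P O f v s y) *
      ψ (X.AS P O (X.TRi P O i v s y f) v s x).card)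
    (X.ball v (4 * P.J + 3 + (2 * P.J + P.M + 1)))
    (X.finite_ball v _)
    (fun O O' f f' ha => by
      have e1 := (hL O O' f f' v _ ha s y y).2.2.1 P (by omega)
      have e2 := (hL O O' _ _ v _ (tri_agr X hL P le_rfl ha i s y) s x x).2.2.1 P le_rfl
      show ind (i ∈ X.AS P O f v s y) * ψ (X.AS P O (X.TRi P O i v s y f) v s x).card =
        ind (i ∈ X.AS P O' f' v s y) * ψ (X.AS P O' (X.TRi P O' i v s y f') v s x).card
      rw [e1, e2]) ε).1
  exact h2

theorem meas_N (hM : MEAS X) (hL : LOCB X) (ε : ℝ) (P : Par) (v : H) (s : S) (y : L) :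
    Measurable fun w : St H S L => (X.AS P (Om X ε w) w.1 v s y).card := by
  have h2 := (hM (fun O f => (X.AS P O f v s y).card)
    (X.ball v (2 * P.J + P.M + 1))
    (X.finite_ball v _)
    (fun O O' f f' ha => by
      show (X.AS P O f v s y).card = (X.AS P O' f' v s y).card
      rw [(hL O O' f f' v _ ha s y y).2.2.1 P le_rfl]) ε).1
  exact h2

theorem gaf_le (P : Par) (O : Edges H S) (v : H) (s : S) (y : L) (f : Cfg H S L) :
    (GAf X P O v s y f).card ≤ P.cap := by
  classical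
  unfold GAf
  by_cases h : (X.AS P O f v s y).card ≤ P.cap
  · exact (Finset.card_le_card (Finset.filter_subset _ _)).trans h
  · rw [Finset.filter_false_of_mem (fun i _ h' => h h'.1)]
    exact Nat.zero_le _

theorem sum_ind_mem {ι : Type} [Fintype ι] (A : Finset ι) (φ : ι → ℝ≥0∞) :
    ∑ i, ind (i ∈ A) * φ i = ∑ i ∈ A, φ i := by
  classical
  rw [← Finset.sum_subset (Finset.subset_univ A)]
  · exact Finset.sum_congr rfl fun i hi => by rw [ind_true hi, one_mul]
  · intro i _ hi
    rw [ind_false hi, zero_mul]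

theorem pt (P : Par) (O : Edges H S) (v : H) (s : S) (y : L) (f : Cfg H S L) :
    (((X.AS P O f v s y).card : ℕ) : ℝ≥0∞) ≤ ((GAf X P O v s y f).card : ℝ≥0∞) +
      ((X.AS P O f v s y).card : ℝ≥0∞) * ind (P.cap < (X.AS P O f v s y).card) +
      ∑ i, ind (i ∈ X.AS P O f v s y) *
        ind (P.cap < (X.AS P O (X.TRi P O i v s y f) v s (f v s)).card) := by
  classical
  by_cases h : P.cap < (X.AS P O f v s y).card
  · rw [ind_true h, mul_one]
    exact le_add_right (le_add_left le_rfl)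
  · rw [ind_false h, mul_zero, add_zero, sum_ind_mem]
    have h' : (X.AS P O f v s y).card ≤ P.cap := not_lt.1 h
    have e1 : ∀ i, ind (P.cap < (X.AS P O (X.TRi P O i v s y f) v s (f v s)).card) =
        if ¬ ((X.AS P O f v s y).card ≤ P.cap ∧
          (X.AS P O (X.TRi P O i v s y f) v s (f v s)).card ≤ P.cap) then 1 else 0 := by
      intro i
      by_cases hc : (X.AS P O (X.TRi P O i v s y f) v s (f v s)).card ≤ P.cap
      · rw [ind_false (not_lt.2 hc), if_neg (not_not.2 ⟨h', hc⟩)]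
      · rw [ind_true (not_le.1 hc), if_pos (fun h2 => hc h2.2)]
    rw [Finset.sum_congr rfl (fun i _ => e1 i), ← Finset.sum_filter, Finset.sum_const,
      nsmul_eq_mul, mul_one]
    have e2 := Finset.card_filter_add_card_filter_not (s := X.AS P O f v s y)
      (fun i => (X.AS P O f v s y).card ≤ P.cap ∧
          (X.AS P O (X.TRi P O i v s y f) v s (f v s)).card ≤ P.cap)
    unfold GAf
    rw [← Nat.cast_add]
    exact Nat.cast_le.2 e2.ge

/-- Packet OE-HH. -/
theorem hh {ε : ℝ} {μ : Measure (St H S L)} (C : Ctx X ε μ) (hM : MOM X ε μ) (hC : CHEB)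
    (hE : ESYM X ε) (hT : TRL X ε μ) (hG : MGA X ε) : HH X ε μ := by
  classical
  intro hn b hb hcl hb1 P η hPM hcap hη v s x y hxy
  have tG : Test X v s y (Gxy X b v s x y) := gxy_test X hb hb1 v s y hxy
  have tG' : Test X v s x (Gxy X b v s y y) := gxy_test X hb hb1 v s y hxy.symm
  have hI : ∫⁻ w, Gxy X b v s y y w ∂μ = ∫⁻ w, Gxy X b v s x y w ∂μ :=
    (hE μ C.star b hb hcl v s x y).symm
  have hI1 : ∫⁻ w, Gxy X b v s x y w ∂μ ≤ 1 := by
    calc ∫⁻ w, Gxy X b v s x y w ∂μ ≤ ∫⁻ _, 1 ∂μ := lintegral_mono tG.le_one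
      _ = 1 := by rw [lintegral_one, C.prob]
  have hIf : ∫⁻ w, Gxy X b v s x y w ∂μ ≠ ∞ := (hI1.trans_lt ENNReal.one_lt_top).ne
  have hcap0 : (P.cap : ℝ≥0∞) ≠ 0 := by
    have : P.cap ≠ 0 := by omega
    exact_mod_cast this
  have hcapt : (P.cap : ℝ≥0∞) ≠ ∞ := ENNReal.natCast_ne_top _
  rcases hη with hη | ⟨hΛ, hε, β, hβ, hβc, hη⟩
  · have h1 : ∀ w, Gxy X b v s x y w * fb X P ε v s y w ≤ Gxy X b v s x y w := by
      intro w
      refine (mul_le_mul' le_rfl ?_).trans (mul_one _).le
      unfold fb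
      refine ENNReal.div_le_of_le_mul ?_
      rw [one_mul]
      exact Nat.cast_le.2 (Nat.sub_le _ _)
    refine (lintegral_mono h1).trans ?_
    have h2 : 1 ≤ ENNReal.ofReal η := ENNReal.one_le_ofReal.2 hη
    calc ∫⁻ w, Gxy X b v s x y w ∂μ = 1 * ∫⁻ w, Gxy X b v s x y w ∂μ := (one_mul _).symm
      _ ≤ _ := mul_le_mul' h2 le_rfl
  · set n := Fintype.card L with hnd
    set Λ := Lam n P ε with hΛd
    have hn' : (3 : ℝ) ≤ n := by exact_mod_cast hn
    have hs0 : 0 < (1 - ε) ^ (2 * P.J) := pow_pos (by linarith) _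
    have hs1 : (1 - ε) ^ (2 * P.J) ≤ 1 := pow_le_one₀ (by linarith) (by linarith [C.nonneg])
    set K := ((n : ℝ) - 2) * Λ + Λ ^ 2 / (1 - ε) ^ (2 * P.J) with hKd
    have hK : 0 ≤ K := by
      have h1 : 0 ≤ ((n : ℝ) - 2) * Λ := mul_nonneg (by linarith) hΛ.le
      have h2 : 0 ≤ Λ ^ 2 / (1 - ε) ^ (2 * P.J) := by positivity
      linarith
    have hKv : (K - Λ ^ 2) / Λ = vv n P ε * Λ := by
      unfold vv
      rw [hKd, ← hΛd]
      have := hΛ.ne'
      field_simp
      try ring
    have hvv : 0 ≤ vv n P ε := by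
      unfold vv
      rw [← hΛd]
      have h1 : 0 ≤ ((n : ℝ) - 2) / Λ := div_nonneg (by linarith) hΛ.le
      have h2 : 1 ≤ 1 / (1 - ε) ^ (2 * P.J) := by
        rw [le_div_iff₀ hs0, one_mul]; exact hs1
      linarith
    set T := (1 + β) / β ^ 2 * vv n P ε * Λ with hTd
    have hT0 : 0 ≤ T := by
      have : 0 ≤ (1 + β) / β ^ 2 := by positivity
      exact mul_nonneg (mul_nonneg this hvv) hΛ.le
    have hTK : (1 + β) / β ^ 2 * ((K - Λ ^ 2) / Λ) = T := by
      rw [hKv, hTd]; ring
    obtain ⟨m1, m2⟩ := hM hn P v s y _ tG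
    obtain ⟨m1', m2'⟩ := hM hn P v s x _ tG'
    have c1 := hC μ (Gxy X b v s x y) (fun w => (X.AS P (Om X ε w) w.1 v s y).card) Λ K β P.cap
      tG.meas (meas_N X C.meas C.locb ε P v s y) hIf hΛ hK hβ hβc m1 (m2 hPM hε)
    have c2 := hC μ (Gxy X b v s y y) (fun w => (X.AS P (Om X ε w) w.1 v s x).card) Λ K β P.cap
      tG'.meas (meas_N X C.meas C.locb ε P v s x) (by rw [hI]; exact hIf) hΛ hK hβ hβc m1'
      (m2' hPM hε)
    rw [hTK] at c1 c2
    rw [hI] at c2
    -- measurability
    have hfb : Measurable (fb X P ε v s y : St H S L → ℝ≥0∞) := (hG P v s y).1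
    have hD : Measurable fun w : St H S L =>
        ((P.cap - (GAf X P (Om X ε w) v s y w.1).card : ℕ) : ℝ≥0∞) := by
      have : (fun w : St H S L => ((P.cap - (GAf X P (Om X ε w) v s y w.1).card : ℕ) : ℝ≥0∞)) =
          fun w => fb X P ε v s y w * P.cap := by
        funext w
        unfold fb
        rw [ENNReal.div_mul_cancel hcap0 hcapt]
      rw [this]
      exact hfb.mul_const _
    have hDG : Measurable fun w : St H S L => Gxy X b v s x y w *
        ((P.cap - (GAf X P (Om X ε w) v s y w.1).card : ℕ) : ℝ≥0∞) := tG.meas.mul hD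
    have hB : Measurable fun w : St H S L => Gxy X b v s x y w *
        (((X.AS P (Om X ε w) w.1 v s y).card : ℝ≥0∞) *
          ind (P.cap < (X.AS P (Om X ε w) w.1 v s y).card)) := by
      refine tG.meas.mul ?_
      exact meas_card X C.meas C.locb ε P v s y (fun c => (c : ℝ≥0∞) * ind (P.cap < c))
    have hF : ∀ i : Fin P.J × L, Measurable fun w : St H S L => Gxy X b v s x y w *
        (ind (i ∈ X.AS P (Om X ε w) w.1 v s y) *
        ind (P.cap < (X.AS P (Om X ε w) (X.TRi P (Om X ε w) i v s y w.1) v s x).card)) :=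
      fun i => tG.meas.mul (meas_F X C.meas C.locb ε P v s x y i (fun c => ind (P.cap < c)))
    -- the third term
    have hthird : ∫⁻ w, ∑ i, Gxy X b v s x y w * (ind (i ∈ X.AS P (Om X ε w) w.1 v s y) *
        ind (P.cap < (X.AS P (Om X ε w) (X.TRi P (Om X ε w) i v s y w.1) v s x).card)) ∂μ ≤
        ENNReal.ofReal T * ∫⁻ w, Gxy X b v s x y w ∂μ := by
      rw [lintegral_finset_sum _ (fun i _ => hF i)]
      have e1 : ∀ i : Fin P.J × L, ∫⁻ w, Gxy X b v s x y w *
          (ind (i ∈ X.AS P (Om X ε w) w.1 v s y) *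
          ind (P.cap < (X.AS P (Om X ε w) (X.TRi P (Om X ε w) i v s y w.1) v s x).card)) ∂μ =
          ∫⁻ w, Gxy X b v s y y w * (ind (i ∈ X.AS P (Om X ε w) w.1 v s x) *
            ind (P.cap < (X.AS P (Om X ε w) w.1 v s x).card)) ∂μ := by
        intro i
        exact hT b hb hcl P v s x y i (fun c => ind (P.cap < c)) hxy
      rw [Finset.sum_congr rfl (fun i _ => e1 i), ← lintegral_finset_sum]
      · refine le_trans (le_of_eq ?_) c2
        apply lintegral_congr
        intro w
        rw [← Finset.mul_sum]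
        congr 1
        rw [sum_ind_mem, Finset.sum_const, nsmul_eq_mul]
      · intro i _
        refine tG'.meas.mul ?_
        have h2 := (C.meas (fun O f => ind (i ∈ X.AS P O f v s x) *
            ind (P.cap < (X.AS P O f v s x).card))
          (X.ball v (2 * P.J + P.M + 1)) (X.finite_ball v _)
          (fun O O' f f' ha => by
            show ind (i ∈ X.AS P O f v s x) * ind (P.cap < (X.AS P O f v s x).card) =
              ind (i ∈ X.AS P O' f' v s x) * ind (P.cap < (X.AS P O' f' v s x).card)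
            rw [(C.locb O O' f f' v _ ha s x x).2.2.1 P le_rfl]) ε).1
        exact h2
    -- the main inequality
    have hmain : ENNReal.ofReal Λ * ∫⁻ w, Gxy X b v s x y w ∂μ ≤
        ∫⁻ w, Gxy X b v s x y w * ((GAf X P (Om X ε w) v s y w.1).card : ℝ≥0∞) ∂μ +
          ENNReal.ofReal T * ∫⁻ w, Gxy X b v s x y w ∂μ +
          ENNReal.ofReal T * ∫⁻ w, Gxy X b v s x y w ∂μ := by
      rw [← m1]
      refine le_trans ?_ (add_le_add (add_le_add le_rfl c1) hthird)
      rw [← lintegral_add_right _ hB,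
        ← lintegral_add_right _ (Finset.measurable_sum _ (fun i _ => hF i))]
      refine lintegral_mono fun w => ?_
      by_cases h0 : Gxy X b v s x y w = 0
      · rw [h0]; simp
      · have hx : w.1 v s = x := gxy_ne X h0
        have hp := pt X P (Om X ε w) v s y w.1
        rw [hx] at hp
        rw [← Finset.mul_sum, ← mul_add, ← mul_add]
        exact mul_le_mul' le_rfl hp
    -- the sum
    have hsum : ∫⁻ w, Gxy X b v s x y w * ((GAf X P (Om X ε w) v s y w.1).card : ℝ≥0∞) ∂μ +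
        ∫⁻ w, Gxy X b v s x y w *
          ((P.cap - (GAf X P (Om X ε w) v s y w.1).card : ℕ) : ℝ≥0∞) ∂μ =
        P.cap * ∫⁻ w, Gxy X b v s x y w ∂μ := by
      rw [← lintegral_add_right _ hDG, ← lintegral_const_mul _ tG.meas]
      apply lintegral_congr
      intro w
      rw [← mul_add, ← Nat.cast_add, Nat.add_sub_cancel' (gaf_le X P _ v s y w.1), mul_comm]
    have hgoal : ∫⁻ w, Gxy X b v s x y w * fb X P ε v s y w ∂μ =
        (∫⁻ w, Gxy X b v s x y w *
          ((P.cap - (GAf X P (Om X ε w) v s y w.1).card : ℕ) : ℝ≥0∞) ∂μ) / P.cap := by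
      rw [div_eq_mul_inv, ← lintegral_mul_const _ hDG]
      apply lintegral_congr
      intro w
      unfold fb
      rw [div_eq_mul_inv, mul_assoc]
    rw [hgoal]
    set I := ∫⁻ w, Gxy X b v s x y w ∂μ with hId
    set A := ∫⁻ w, Gxy X b v s x y w * ((GAf X P (Om X ε w) v s y w.1).card : ℝ≥0∞) ∂μ with hAd
    set D := ∫⁻ w, Gxy X b v s x y w *
          ((P.cap - (GAf X P (Om X ε w) v s y w.1).card : ℕ) : ℝ≥0∞) ∂μ with hDd
    have hci : (P.cap : ℝ≥0∞) * I ≠ ∞ := ENNReal.mul_ne_top hcapt hIf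
    have hAf : A ≠ ∞ := fun h => hci (by rw [← hsum, h, top_add])
    have hDf : D ≠ ∞ := fun h => hci (by rw [← hsum, h, add_top])
    have r1 : A.toReal + D.toReal = P.cap * I.toReal := by
      rw [← ENNReal.toReal_add hAf hDf, hsum, ENNReal.toReal_mul, ENNReal.toReal_natCast]
    have r2 : Λ * I.toReal ≤ A.toReal + T * I.toReal + T * I.toReal := by
      have hTI : ENNReal.ofReal T * I ≠ ∞ := ENNReal.mul_ne_top ENNReal.ofReal_ne_top hIf
      have h1 := ENNReal.toReal_mono (ENNReal.add_ne_top.2 ⟨ENNReal.add_ne_top.2 ⟨hAf, hTI⟩, hTI⟩)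
        hmain
      rw [ENNReal.toReal_add (ENNReal.add_ne_top.2 ⟨hAf, hTI⟩) hTI, ENNReal.toReal_add hAf hTI,
        ENNReal.toReal_mul, ENNReal.toReal_mul, ENNReal.toReal_ofReal hΛ.le,
        ENNReal.toReal_ofReal hT0] at h1
      exact h1
    have hc0 : (0 : ℝ) < P.cap := by
      have : 0 < P.cap := hcap
      exact_mod_cast this
    have hI0 : 0 ≤ I.toReal := ENNReal.toReal_nonneg
    have r3 : D.toReal / P.cap ≤ η * I.toReal := by
      have h1 : D.toReal ≤ (P.cap - Λ + 2 * T) * I.toReal := by nlinarith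
      have h2 : (P.cap - Λ + 2 * T) / P.cap ≤ η := by
        have e : (P.cap - Λ + 2 * T) / P.cap = 1 - Λ / P.cap + 2 * T / P.cap := by
          field_simp
        rw [e]
        exact hη
      calc D.toReal / P.cap ≤ (P.cap - Λ + 2 * T) * I.toReal / P.cap :=
            div_le_div_of_nonneg_right h1 hc0.le
        _ = (P.cap - Λ + 2 * T) / P.cap * I.toReal := by ring
        _ ≤ η * I.toReal := mul_le_mul_of_nonneg_right h2 hI0
    calc D / P.cap = ENNReal.ofReal (D.toReal / P.cap) := by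
          rw [ENNReal.ofReal_div_of_pos hc0, ENNReal.ofReal_toReal hDf, ENNReal.ofReal_natCast]
      _ ≤ ENNReal.ofReal (η * I.toReal) := ENNReal.ofReal_le_ofReal r3
      _ = ENNReal.ofReal η * I := by
          rw [ENNReal.ofReal_mul' hI0, ENNReal.ofReal_toReal hIf]

end Pool.Agent.Helper35.OE
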