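import Pool.Agent.Helper35.OE.Asm
import Pool.Agent.Helper35.OE.Fin
import Pool.Agent.Helper84.OE.SUM
import Pool.Agent.Helper31.OE.HEAD
import Pool.Agent.Helper19.OE.BASE
import Pool.Agent.Helper58.OE.LAW
import Pool.Agent.Helper2.OE.INV
import Pool.Agent.Helper54.OE.STAB
import Pool.Agent.Helper32.OE.MLIM
import Pool.Agent.Helper9.OE.INI1
import Pool.Agent.Helper79.OE.INI2
import Pool.Agent.Helper14.OE.SEQE
import Pool.Agent.Helper79.OE.BatchD
import Pool.Agent.Helper75.OE.AsmAB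
import Pool.Agent.Helper73.OE.FV
import Pool.Agent.Helper78.OE.BlockC
import Pool.Agent.Helper35.OE.HH

set_option autoImplicit false

/-!
# Project OE (MP_fc0446_an): the structure theorem and the final theorem
-/

open MeasureTheory
open scoped ENNReal

namespace Pool.Agent.Helper35.OE

open Pool.Agent.Helper73.OE Pool.Agent.Helper78.OE

theorem updLoc : UpdLoc_stmt := Pool.Agent.Helper75.OE.Asm.updLoc_stmt

theorem fv : FV_stmt :=
  finiteVolume Pool.Agent.Helper75.OE.Asm.exact_stmt updLoc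
    (fun X ε ε' η h Λ => ⟨_, ((Pool.Agent.Helper58.OE.ord X ε ε' η (Λ : Set _)).2 inferInstance
      (Finset.finite_toSet Λ) h)⟩)
    (Pool.Agent.Helper86.OE.dis)
    (Pool.Agent.Helper30.OE.mea updLoc Pool.Agent.Helper58.OE.ord Pool.Agent.Helper26.OE.meo)

theorem cost : Cost_stmt := by
  refine cost_stmt_of2 ?_
  intro H S L _ _ _ _ X ε μ C hM hC hE hT hG
  exact hh X C hM hC hE hT hG

/-- The structure theorem. -/
theorem struct_top : Struct_stmt :=
  struct_of cost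
    (Pool.Agent.Helper79.OE.batch_of Pool.Agent.Helper75.OE.Asm.wit_stmt matched_stmt ind_stmt
      Pool.Agent.Helper8.OE.lab fv updLoc)
    Pool.Agent.Helper79.OE.batchEquiv (Pool.Agent.Helper79.OE.batchMeas_of updLoc) matched_stmt
    Pool.Agent.Helper9.OE.gINI1 Pool.Agent.Helper79.OE.ini2 Pool.Agent.Helper14.OE.gSEQ
    Pool.Agent.Helper19.OE.gBASE Pool.Agent.Helper31.OE.gHEAD Pool.Agent.Helper58.OE.gLAW
    Pool.Agent.Helper2.OE.gINV Pool.Agent.Helper2.OE.gSHIFT Pool.Agent.Helper54.OE.gSTAB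
    Pool.Agent.Helper32.OE.gMLIM Pool.Agent.Helper32.OE.gELIM

open Pool.Agent.Helper58.Orb in
theorem top (d : ℕ) (hd : 2 ≤ d) :
    (∃ Φ : Bern (FreeGroup (Fin d)) → Bern (Gam (2 * d)),
      OrbitIsometry (freeGens d) (gamGens (2 * d)) Φ ∧ OrbitsOnto Φ) ∧
    (∃ Ψ : Bern (Gam (2 * d)) → Bern (FreeGroup (Fin d)),
      OrbitIsometry (gamGens (2 * d)) (freeGens d) Ψ ∧ OrbitsOnto Ψ) :=
  final_of Pool.Agent.Helper84.OE.gSUM struct_top d hd

end Pool.Agent.Helper35.OE
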