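import Pool.Agent.Helper35.OE.GoalsE
import Pool.Agent.Helper58.Orb.Groups

set_option autoImplicit false

/-!
# Project OE (MP_fc0446_an), block E: from tree data to `Sys`, and the map between two trees
given by a matched configuration
-/

open MeasureTheory
open scoped ENNReal

namespace Pool.Agent.Helper35.OE

open Pool.Agent.Helper73.OE Pool.Agent.Helper58.Orb

section TD

variable {G : Type} [Group G] {S : Set G} {D : Type} (T : TreeData G S D)

theorem len_inv_le (g : G) : T.len g⁻¹ ≤ T.len g := by
  obtain ⟨l, h1, h2, h3⟩ := T.exists_list g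
  have h4 := T.len_le_of_list (l := (l.map fun a => a⁻¹).reverse) (by
    intro a ha
    rw [List.mem_reverse, List.mem_map] at ha
    obtain ⟨b, hb, rfl⟩ := ha
    obtain ⟨s, rfl⟩ := T.exists_dir (h1 b hb)
    rw [← T.dir_inv]
    exact T.dir_mem _)
  rw [← List.prod_inv_reverse, h2, List.length_reverse, List.length_map, h3] at h4
  exact h4

theorem len_inv (g : G) : T.len g⁻¹ = T.len g := by
  apply le_antisymm (len_inv_le T g)
  have := len_inv_le T g⁻¹
  rwa [inv_inv] at this

theorem step_left (s : D) (g : G) :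
    T.len (T.dir s * g) = T.len g + 1 ∨ T.len g = T.len (T.dir s * g) + 1 := by
  rcases Nat.eq_zero_or_pos (T.len g) with h | h
  · left
    have : g = 1 := T.eq_one_of_len h
    subst this
    rw [mul_one, T.len_dir, T.len_one]
  · obtain ⟨k, hk⟩ : ∃ k, T.len g = k + 1 := ⟨T.len g - 1, by omega⟩
    obtain ⟨s0, g', h1, h2⟩ := T.exists_pred hk
    have h3 : T.dir (T.inv s0) * g = g' := by
      rw [h1, T.dir_inv, inv_mul_cancel_left]
    by_cases hs : s = T.inv s0
    · right
      rw [hs, h3, h2, hk]
    · left
      have h4 := T.up g s (T.inv s0) hs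
      rw [h3, h2] at h4
      have h5 := T.len_mul_le s g
      omega

variable {L : Type}

/-- The tree data as a `Sys`. -/
def sysOf (tau : L → L) (ht : ∀ l, tau (tau l) = l) (e0 : D ≃ L) : Sys G D L where
  dir := T.dir
  bar := T.inv
  dist v z := T.len (v⁻¹ * z)
  bar_bar := T.inv_inv
  dir_bar := T.dir_inv
  dist_comm v z := by
    rw [← len_inv T (v⁻¹ * z), mul_inv_rev, inv_inv]
  dist_mul g v z := by
    rw [mul_inv_rev, mul_assoc, inv_mul_cancel_left]
  dist_eq_zero v z := by
    constructor
    · intro h
      exact (inv_mul_eq_one.1 (T.eq_one_of_len h))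
    · rintro rfl
      rw [inv_mul_cancel, T.len_one]
  step o v s := by
    have h := step_left T (T.inv s) (v⁻¹ * o)
    rw [← len_inv T (o⁻¹ * (v * T.dir s)), ← len_inv T (o⁻¹ * v)]
    have e1 : (o⁻¹ * (v * T.dir s))⁻¹ = T.dir (T.inv s) * (v⁻¹ * o) := by
      rw [T.dir_inv]
      group
    have e2 : (o⁻¹ * v)⁻¹ = v⁻¹ * o := by group
    rw [e1, e2]
    exact h
  par o v hv := by
    have hg : T.len (v⁻¹ * o) ≠ 0 := by
      intro h
      exact hv (inv_mul_eq_one.1 (T.eq_one_of_len h))
    have e1 : ∀ s, T.len (o⁻¹ * (v * T.dir s)) = T.len (T.dir (T.inv s) * (v⁻¹ * o)) := by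
      intro s
      rw [← len_inv T (o⁻¹ * (v * T.dir s)), T.dir_inv]
      congr 1
      group
    have e2 : T.len (o⁻¹ * v) = T.len (v⁻¹ * o) := by
      rw [← len_inv T (o⁻¹ * v)]
      congr 1
      group
    obtain ⟨k, hk⟩ : ∃ k, T.len (v⁻¹ * o) = k + 1 := ⟨T.len (v⁻¹ * o) - 1, by omega⟩
    obtain ⟨s0, g', h1, h2⟩ := T.exists_pred hk
    refine ⟨s0, ?_, ?_⟩
    · show T.len (o⁻¹ * v) = T.len (o⁻¹ * (v * T.dir s0)) + 1
      rw [e1, e2, hk, h1, T.dir_inv, inv_mul_cancel_left, h2]
    · intro s hs
      have hs' : T.len (o⁻¹ * v) = T.len (o⁻¹ * (v * T.dir s)) + 1 := hs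
      rw [e1, e2] at hs'
      by_contra hne
      have hne2 : T.inv s ≠ T.inv s0 := by
        intro h
        apply hne
        rw [← T.inv_inv s, h, T.inv_inv]
      have h3 : T.dir (T.inv s0) * (v⁻¹ * o) = g' := by
        rw [h1, T.dir_inv, inv_mul_cancel_left]
      have h4 := T.up (v⁻¹ * o) (T.inv s) (T.inv s0) hne2
      rw [h3, h2] at h4
      omega
  tau := tau
  tau_tau := ht
  e0 := e0

end TD

section Theta

variable {H S L K : Type} [Group H] [Group K] (X : Sys H S L) (t : L → K)

open Classical in
/-- The map to the target group, with fuel. -/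
noncomputable def thN (q : Cfg H S L) : ℕ → H → K
  | 0, _ => 1
  | n + 1, v => if h : ∃ s, X.dist 1 v = X.dist 1 (X.nb v s) + 1 then
      thN q n (X.nb v h.choose) * t (q (X.nb v h.choose) (X.bar h.choose)) else 1

/-- The map to the target group. -/
noncomputable def theta (q : Cfg H S L) (v : H) : K := thN X t q (X.dist 1 v) v

theorem theta_one (q : Cfg H S L) : theta X t q 1 = 1 := by
  unfold theta
  rw [X.dist_self]
  rfl

theorem theta_par (q : Cfg H S L) {v : H} {s : S} (h : X.dist 1 v = X.dist 1 (X.nb v s) + 1) :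
    theta X t q v = theta X t q (X.nb v s) * t (q (X.nb v s) (X.bar s)) := by
  have hex : ∃ s, X.dist 1 v = X.dist 1 (X.nb v s) + 1 := ⟨s, h⟩
  have hs : hex.choose = s := X.parent_unique hex.choose_spec h
  unfold theta
  conv_lhs => rw [h, thN, dif_pos hex, hs]

/-- The configuration is matched. -/
def Matched (q : Cfg H S L) : Prop := ∀ v s, X.Mt q v s

variable (ht : ∀ l, t (X.tau l) = (t l)⁻¹)
include ht

theorem theta_nb {q : Cfg H S L} (hq : Matched X q) (v : H) (s : S) :
    theta X t q (X.nb v s) = theta X t q v * t (q v s) := by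
  rcases X.dist_nb 1 v s with h | h
  · have h2 : X.dist 1 (X.nb v s) = X.dist 1 (X.nb (X.nb v s) (X.bar s)) + 1 := by
      rw [X.nb_bar]
      exact h
    rw [theta_par X t q h2, X.nb_bar, X.bar_bar]
  · rw [theta_par X t q h]
    have h3 : q (X.nb v s) (X.bar s) = X.tau (q v s) := hq v s
    rw [h3, ht, inv_mul_cancel_right]

omit ht in
theorem eq_of_nb {q : Cfg H S L} {F F' : H → K} (h1 : F 1 = F' 1)
    (h : ∀ v s, F (X.nb v s) = F v * t (q v s)) (h' : ∀ v s, F' (X.nb v s) = F' v * t (q v s))
    (v : H) : F v = F' v := by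
  have key : ∀ n v, X.dist 1 v = n → F v = F' v := by
    intro n
    induction n with
    | zero =>
      intro v hv
      have : (1 : H) = v := (X.dist_eq_zero 1 v).1 hv
      rw [← this]
      exact h1
    | succ n ih =>
      intro v hv
      have hne : v ≠ 1 := by
        rintro rfl
        rw [X.dist_self] at hv
        omega
      obtain ⟨s, hs⟩ := X.exists_parent hne
      have h3 := ih (X.nb v s) (by omega)
      have h4 := h (X.nb v s) (X.bar s)
      have h5 := h' (X.nb v s) (X.bar s)
      rw [X.nb_bar] at h4 h5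
      rw [h4, h5, h3]
  exact key _ v rfl

theorem theta_act {q : Cfg H S L} (hq : Matched X q) (g v : H) :
    theta X t (Sys.actC g q) v = (theta X t q g⁻¹)⁻¹ * theta X t q (g⁻¹ * v) := by
  have hq' : Matched X (Sys.actC g q) := by
    intro v s
    have := hq (g⁻¹ * v) s
    unfold Sys.Mt Sys.actC at *
    rw [← X.nb_mul]
    exact this
  refine eq_of_nb X t (q := Sys.actC g q) (F := theta X t (Sys.actC g q))
    (F' := fun v => (theta X t q g⁻¹)⁻¹ * theta X t q (g⁻¹ * v)) ?_ ?_ ?_ v
  · simp only [mul_one, inv_mul_cancel]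
    exact theta_one X t _
  · exact theta_nb X t ht hq'
  · intro v s
    rw [← X.nb_mul, theta_nb X t ht hq, mul_assoc]
    rfl

omit ht [Group K] in
/-- Following the labels of a word. -/
noncomputable def walkL (q : Cfg H S L) : List L → H → H
  | [], v => v
  | a :: l, v => walkL q l (X.nb v ((q v).symm a))

theorem theta_walk {q : Cfg H S L} (hq : Matched X q) (l : List L) (v : H) :
    theta X t q (walkL X q l v) = theta X t q v * (l.map t).prod := by
  induction l generalizing v with
  | nil => simp [walkL]
  | cons a l ih =>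
    rw [walkL, ih, theta_nb X t ht hq, Equiv.apply_symm_apply, List.map_cons, List.prod_cons,
      mul_assoc]

end Theta

section Iso

variable {H S L K : Type} [Group H] [Group K] (X : Sys H S L) {S' : Set K} (T' : TreeData K S' L)
  (hτ : ∀ l, X.tau l = T'.inv l)

include hτ in
theorem dir_tau (l : L) : T'.dir (X.tau l) = (T'.dir l)⁻¹ := by
  rw [hτ, T'.dir_inv]

include hτ in
/-- A matched configuration gives an isometry. -/
theorem len_theta {q : Cfg H S L} (hq : Matched X q) (v w : H) :
    T'.len ((theta X T'.dir q v)⁻¹ * theta X T'.dir q w) = X.dist v w := by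
  have ht := dir_tau X T' hτ
  set Y : Sys K L S := sysOf T' X.bar X.bar_bar X.e0.symm with hY
  set θ : H → K := theta X T'.dir q with hθ
  have hnb : ∀ v s, θ (X.nb v s) = Y.nb (θ v) (q v s) := fun v s => theta_nb X T'.dir ht hq v s
  have key : ∀ n w, X.dist v w ≤ n → Y.dist (θ v) (θ w) = X.dist v w := by
    intro n
    induction n with
    | zero =>
      intro w hw
      have h0 : X.dist v w = 0 := by omega
      have : v = w := (X.dist_eq_zero v w).1 h0
      subst this
      rw [Y.dist_self, X.dist_self]
    | succ n ih =>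
      intro w hw
      rcases Nat.lt_or_ge (X.dist v w) (n + 1) with hlt | hge
      · exact ih w (by omega)
      have hd : X.dist v w = n + 1 := by omega
      have hne : w ≠ v := by
        rintro rfl
        rw [X.dist_self] at hd
        omega
      obtain ⟨p, hp⟩ := X.exists_parent hne
      set w' : H := X.nb w p with hw'
      have hd' : X.dist v w' = n := by omega
      have hww : X.nb w' (X.bar p) = w := X.nb_bar w p
      have h1 := ih w' (by omega)
      have h2 : θ w = Y.nb (θ w') (q w' (X.bar p)) := by
        rw [← hnb, hww]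
      rcases Y.dist_nb (θ v) (θ w') (q w' (X.bar p)) with h3 | h3
      · rw [h2, h3, h1]
        omega
      · exfalso
        have hn : n ≠ 0 := by
          intro h0
          rw [h1, hd'] at h3
          omega
        have hne' : w' ≠ v := by
          rintro h4
          rw [h4, X.dist_self] at hd'
          exact hn hd'.symm
        obtain ⟨p', hp'⟩ := X.exists_parent hne'
        have h4 := ih (X.nb w' p') (by omega)
        rw [hnb] at h4
        have h5 : Y.dist (θ v) (θ w') = Y.dist (θ v) (Y.nb (θ w') (q w' p')) + 1 := by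
          rw [h4, h1]
          exact hp'
        have h6 := Y.parent_unique h3 h5
        have h7 : X.bar p = p' := (q w').injective h6
        rw [← h7, hww] at hp'
        omega
  exact key _ w le_rfl

include hτ in
theorem theta_inj {q : Cfg H S L} (hq : Matched X q) :
    Function.Injective (theta X T'.dir q) := by
  intro v w h
  have := len_theta X T' hτ hq v w
  rw [h, inv_mul_cancel, T'.len_one] at this
  exact (X.dist_eq_zero v w).1 this.symm

theorem exists_labels (γ : K) : ∃ l : List L, (l.map T'.dir).prod = γ := by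
  obtain ⟨l, h1, h2, -⟩ := T'.exists_list γ
  rw [← h2]
  clear h2
  induction l with
  | nil => exact ⟨[], rfl⟩
  | cons a l ih =>
    obtain ⟨m, hm⟩ := ih (fun b hb => h1 b (List.mem_cons_of_mem a hb))
    obtain ⟨s, hs⟩ := T'.exists_dir (h1 a List.mem_cons_self)
    exact ⟨s :: m, by rw [List.map_cons, List.prod_cons, List.prod_cons, hm, hs]⟩

/-- The inverse of `theta`. -/
noncomputable def xi (q : Cfg H S L) (γ : K) : H := walkL X q (exists_labels T' γ).choose 1

include hτ in
theorem theta_xi {q : Cfg H S L} (hq : Matched X q) (γ : K) :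
    theta X T'.dir q (xi X T' q γ) = γ := by
  unfold xi
  rw [theta_walk X T'.dir (dir_tau X T' hτ) hq, theta_one, one_mul]
  exact (exists_labels T' γ).choose_spec

include hτ in
theorem xi_theta {q : Cfg H S L} (hq : Matched X q) (v : H) :
    xi X T' q (theta X T'.dir q v) = v :=
  theta_inj X T' hτ hq (theta_xi X T' hτ hq _)

include hτ in
theorem xi_inj {q : Cfg H S L} (hq : Matched X q) : Function.Injective (xi X T' q) := by
  intro γ γ' h
  rw [← theta_xi X T' hτ hq γ, h, theta_xi X T' hτ hq γ']

include hτ in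
theorem xi_act {q : Cfg H S L} (hq : Matched X q) (g : H) (γ : K) :
    xi X T' (Sys.actC g q) γ = g * xi X T' q (theta X T'.dir q g⁻¹ * γ) := by
  have hq' : Matched X (Sys.actC g q) := by
    intro v s
    have := hq (g⁻¹ * v) s
    unfold Sys.Mt Sys.actC at *
    rw [← X.nb_mul]
    exact this
  apply theta_inj X T' hτ hq'
  rw [theta_xi X T' hτ hq', theta_act X T'.dir (dir_tau X T' hτ) hq, inv_mul_cancel_left,
    theta_xi X T' hτ hq, inv_mul_cancel_left]

end Iso

end Pool.Agent.Helper35.OE
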